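import Mathlib

set_option autoImplicit false

namespace Pool.Agent.H.MP_fa571f_co

def pi (φ : ℕ → List ℕ) (x : ℕ → ℕ) : ℕ → ℕ
  | 0 => 0
  | m+1 => pi φ x m + (φ (x m)).length

def seg (x : ℕ → ℕ) : ℕ → ℕ → List ℕ
  | _, 0 => []
  | i, n+1 => x i :: seg x (i+1) n

def Img (φ : ℕ → List ℕ) (x y : ℕ → ℕ) : Prop :=
  ∀ m j, j < (φ (x m)).length → (φ (x m))[j]? = some (y (pi φ x m + j))

theorem seg_length (x : ℕ → ℕ) : ∀ n i, (seg x i n).length = n
  | 0, _ => rfl
  | n+1, i => by simp [seg, seg_length x n]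

theorem seg_get (x : ℕ → ℕ) : ∀ n i k, k < n → (seg x i n)[k]? = some (x (i+k))
  | 0, _, _, h => absurd h (by omega)
  | n+1, i, 0, _ => by simp [seg]
  | n+1, i, k+1, h => by
    have := seg_get x n (i+1) k (by omega)
    simp only [seg, List.getElem?_cons_succ, this]
    rw [show i + 1 + k = i + (k+1) by omega]

theorem seg_ext (x : ℕ → ℕ) (l : List ℕ) (i n : ℕ) (hl : l.length = n)
    (h : ∀ k, k < n → l[k]? = some (x (i+k))) : seg x i n = l := by
  apply List.ext_getElem?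
  intro k
  by_cases hk : k < n
  · rw [seg_get x n i k hk, h k hk]
  · rw [List.getElem?_eq_none (by rw [seg_length]; omega), List.getElem?_eq_none (by omega)]

theorem seg_congr (x : ℕ → ℕ) (i i' n : ℕ) (h : ∀ k, k < n → x (i+k) = x (i'+k)) :
    seg x i n = seg x i' n := by
  apply seg_ext _ _ _ _ (seg_length _ _ _)
  intro k hk
  rw [seg_get x n i' k hk, h k hk]

theorem seg_add (x : ℕ → ℕ) : ∀ a b i, seg x i (a+b) = seg x i a ++ seg x (i+a) b
  | 0, b, i => by simp [seg]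
  | a+1, b, i => by
    rw [show a + 1 + b = (a + b) + 1 by omega]
    simp only [seg, List.cons_append]
    rw [seg_add x a b (i+1), show i + 1 + a = i + (a+1) by omega]

theorem pi_len (φ : ℕ → List ℕ) (x : ℕ → ℕ) : ∀ n m,
    pi φ x (m+n) = pi φ x m + ((seg x m n).flatMap φ).length
  | 0, m => by simp [seg]
  | n+1, m => by
    have := pi_len φ x n (m+1)
    rw [show m + (n+1) = m + 1 + n by omega, this]
    simp only [seg, pi, List.flatMap_cons, List.length_append]
    omega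

theorem pi_mono (φ : ℕ → List ℕ) (x : ℕ → ℕ) {a b : ℕ} (h : a ≤ b) : pi φ x a ≤ pi φ x b := by
  obtain ⟨c, rfl⟩ := Nat.exists_eq_add_of_le h
  rw [pi_len]; omega

theorem pi_ge (φ : ℕ → List ℕ) (hφ : ∀ a, 0 < (φ a).length) (x : ℕ → ℕ) (m : ℕ) :
    ∀ n, pi φ x m + n ≤ pi φ x (m+n)
  | 0 => le_rfl
  | n+1 => by
    have := pi_ge φ hφ x m n
    have h2 := hφ (x (m+n))
    rw [show m + (n+1) = (m+n)+1 by omega, pi]
    omega

theorem decomp (φ : ℕ → List ℕ) (hφ : ∀ a, 0 < (φ a).length) (x : ℕ → ℕ) :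
    ∀ n, ∃ m t, n = pi φ x m + t ∧ t < (φ (x m)).length
  | 0 => ⟨0, 0, rfl, hφ _⟩
  | n+1 => by
    obtain ⟨m, t, h1, h2⟩ := decomp φ hφ x n
    by_cases h : t + 1 < (φ (x m)).length
    · exact ⟨m, t+1, by omega, h⟩
    · exact ⟨m+1, 0, by rw [pi]; omega, hφ _⟩

theorem exists_img (φ : ℕ → List ℕ) (hφ : ∀ a, 0 < (φ a).length) (x : ℕ → ℕ) :
    ∃ y, Img φ x y := by
  choose M T h1 h2 using decomp φ hφ x
  refine ⟨fun n => (φ (x (M n))).getD (T n) 0, ?_⟩
  intro m j hj
  have a1 := h1 (pi φ x m + j)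
  have a2 := h2 (pi φ x m + j)
  have hM : M (pi φ x m + j) = m := by
    rcases lt_trichotomy (M (pi φ x m + j)) m with h | h | h
    · have := pi_mono φ x (show M (pi φ x m + j) + 1 ≤ m from h)
      rw [pi] at this; omega
    · exact h
    · have := pi_mono φ x (show m + 1 ≤ M (pi φ x m + j) from h)
      rw [pi] at this; omega
  have hT : T (pi φ x m + j) = j := by rw [hM] at a1; omega
  simp only [hM, hT]
  rw [List.getD_eq_getElem?_getD, List.getElem?_eq_getElem hj]
  rfl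

theorem win (φ : ℕ → List ℕ) (x y : ℕ → ℕ) (H : Img φ x y) : ∀ n m k,
    k < ((seg x m n).flatMap φ).length →
    ((seg x m n).flatMap φ)[k]? = some (y (pi φ x m + k))
  | 0, m, k, h => by simp [seg] at h
  | n+1, m, k, h => by
    simp only [seg, List.flatMap_cons, List.length_append] at h ⊢
    by_cases hk : k < (φ (x m)).length
    · rw [List.getElem?_append_left hk]; exact H m k hk
    · rw [List.getElem?_append_right (by omega), win φ x y H n (m+1) _ (by omega), pi]
      rw [show pi φ x m + (φ (x m)).length + (k - (φ (x m)).length) = pi φ x m + k by omega]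

theorem segwin (φ : ℕ → List ℕ) (x y : ℕ → ℕ) (H : Img φ x y) (n m t K : ℕ)
    (h : t + K ≤ ((seg x m n).flatMap φ).length) :
    seg y (pi φ x m + t) K = (((seg x m n).flatMap φ).drop t).take K := by
  apply seg_ext
  · simp only [List.length_take, List.length_drop]; omega
  · intro k hk
    rw [List.getElem?_take_of_lt hk, List.getElem?_drop, win φ x y H n m (t+k) (by omega),
      Nat.add_assoc]

def an (φ : ℕ → List ℕ) (a : ℕ) : List ℕ := (List.range (φ a).length).map (fun j => 10*a + j)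

theorem an_len (φ : ℕ → List ℕ) (a : ℕ) : (an φ a).length = (φ a).length := by simp [an]

theorem pi_an (φ : ℕ → List ℕ) (x : ℕ → ℕ) : ∀ m, pi (an φ) x m = pi φ x m
  | 0 => rfl
  | m+1 => by rw [pi, pi, pi_an φ x m, an_len]

theorem an_val (φ : ℕ → List ℕ) (x z : ℕ → ℕ) (H : Img (an φ) x z) (m j : ℕ)
    (hj : j < (φ (x m)).length) : z (pi φ x m + j) = 10 * x m + j := by
  have := H m j (by rw [an_len]; exact hj)
  rw [pi_an] at this
  simp only [an, List.getElem?_map, List.getElem?_range hj, Option.map_some,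
    Option.some.injEq] at this
  exact this.symm

theorem desub (φ : ℕ → List ℕ) (hφ : ∀ a, 0 < (φ a).length) (hφ2 : ∀ a, (φ a).length < 10)
    (x z : ℕ → ℕ) (H : Img (an φ) x z) (e D : ℕ)
    (hL : ∀ m, pi φ x m + e < pi φ x (m + (D+1))) (i P : ℕ) (he : e < P)
    (hz : ∀ k, k + e < P → z (i+k) = z (i+P+k)) :
    ∃ m p, pi φ x (m+p) = pi φ x m + P ∧ ∀ k, k + D < p → x (m+k) = x (m+p+k) := by
  obtain ⟨m, t, h1, h2⟩ := decomp φ hφ x i
  obtain ⟨m2, t2, h3, h4⟩ := decomp φ hφ x (i+P)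
  have a1 := an_val φ x z H m t h2
  have a2 := an_val φ x z H m2 t2 h4
  have a3 := hz 0 (by omega)
  have b1 := hφ2 (x m)
  have b2 := hφ2 (x m2)
  rw [← h1] at a1
  rw [← h3] at a2
  simp only [Nat.add_zero] at a3
  have ht : t = t2 := by omega
  have hx : x m = x m2 := by omega
  have hp : pi φ x m2 = pi φ x m + P := by omega
  have hm : m ≤ m2 := by
    by_contra hc
    have := pi_mono φ x (show m2 ≤ m by omega)
    omega
  obtain ⟨p, rfl⟩ := Nat.exists_eq_add_of_le hm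
  refine ⟨m, p, hp, ?_⟩
  have key : ∀ k, k + D < p →
      pi φ x (m+p+k) = pi φ x (m+k) + P ∧ x (m+k) = x (m+p+k) := by
    intro k
    induction k with
    | zero => intro _; exact ⟨hp, hx⟩
    | succ k ih =>
      intro hk
      obtain ⟨i1, i2⟩ := ih (by omega)
      have c1 : pi φ x (m+p+(k+1)) = pi φ x (m+(k+1)) + P := by
        rw [show m+p+(k+1) = (m+p+k)+1 by omega, show m+(k+1) = (m+k)+1 by omega, pi, pi, i1, i2]
        omega
      refine ⟨c1, ?_⟩
      have c2 := pi_mono φ x (show m + 1 ≤ m + (k+1) by omega)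
      rw [pi] at c2
      have c3 := hL (m+(k+1))
      have c4 := pi_mono φ x (show m + (k+1) + (D+1) ≤ m + p by omega)
      have c5 := hz (pi φ x (m+(k+1)) - i) (by omega)
      have c6 := an_val φ x z H (m+(k+1)) 0 (hφ _)
      have c7 := an_val φ x z H (m+p+(k+1)) 0 (hφ _)
      rw [show i + (pi φ x (m+(k+1)) - i) = pi φ x (m+(k+1)) + 0 by omega,
        show i + P + (pi φ x (m+(k+1)) - i) = pi φ x (m+p+(k+1)) + 0 by omega, c6, c7] at c5
      omega
  intro k hk
  exact (key k hk).2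

/-- generic local check over a window set -/
def loc (F : List (List ℕ)) (φ : ℕ → List ℕ) (Q : List ℕ → ℕ → Bool) : Bool :=
  F.all fun f => (List.range (φ (f.headD 0)).length).all fun t => Q f t

theorem loc_use (F : List (List ℕ)) (φ : ℕ → List ℕ) (Q : List ℕ → ℕ → Bool)
    (h : loc F φ Q = true) (x : ℕ → ℕ) (m n t : ℕ) (hm : seg x m (n+1) ∈ F)
    (ht : t < (φ (x m)).length) : Q (seg x m (n+1)) t = true := by
  simp only [loc, List.all_eq_true, List.mem_range] at h
  exact h _ hm t (by simpa [seg] using ht)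

def qRec (φ : ℕ → List ℕ) (R : ℕ) (T : List (List ℕ × ℕ)) (f : List ℕ) (t : ℕ) : Bool :=
  decide (t + (2*R+1) ≤ (f.flatMap φ).length) &&
    ((f.flatMap (an φ))[t+R]? == T.lookup (((f.flatMap φ).drop t).take (2*R+1)))

theorem rec_use (F : List (List ℕ)) (φ : ℕ → List ℕ) (hφ : ∀ a, 0 < (φ a).length) (R n : ℕ)
    (T : List (List ℕ × ℕ)) (h : loc F φ (qRec φ R T) = true) (x y z : ℕ → ℕ)
    (hF : ∀ m, seg x m (n+1) ∈ F) (H : Img φ x y) (H2 : Img (an φ) x z) (i : ℕ) :
    some (z (i+R)) = T.lookup (seg y i (2*R+1)) := by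
  obtain ⟨m, t, rfl, h2⟩ := decomp φ hφ x i
  have := loc_use F φ _ h x m n t (hF m) h2
  simp only [qRec, Bool.and_eq_true, decide_eq_true_eq, beq_iff_eq] at this
  obtain ⟨q1, q2⟩ := this
  rw [segwin φ x y H (n+1) m t _ q1, ← q2]
  have l1 := pi_len φ x (n+1) m
  have l2 := pi_len (an φ) x (n+1) m
  rw [pi_an, pi_an] at l2
  rw [win (an φ) x z H2 (n+1) m (t+R) (by omega), pi_an, Nat.add_assoc]

def qSmall (φ : ℕ → List ℕ) (lo c d : ℕ) (f : List ℕ) (t : ℕ) : Bool :=
  let G := (f.flatMap φ).drop t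
  decide (2*(lo + c) ≤ G.length) &&
    (List.range c).all fun j => !(G.take (lo+j-d) == (G.drop (lo+j)).take (lo+j-d))

theorem small_use (F : List (List ℕ)) (φ : ℕ → List ℕ) (hφ : ∀ a, 0 < (φ a).length)
    (lo c d n : ℕ) (h : loc F φ (qSmall φ lo c d) = true) (x y : ℕ → ℕ)
    (hF : ∀ m, seg x m (n+1) ∈ F) (H : Img φ x y) (i P : ℕ) (h1 : lo ≤ P) (h2 : P < lo + c)
    (hy : ∀ k, k + d < P → y (i+k) = y (i+P+k)) : False := by
  obtain ⟨m, t, rfl, h3⟩ := decomp φ hφ x i
  have := loc_use F φ _ h x m n t (hF m) h3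
  simp only [qSmall, Bool.and_eq_true, decide_eq_true_eq, List.all_eq_true, List.mem_range,
    List.length_drop, Bool.not_eq_true', beq_eq_false_iff_ne] at this
  obtain ⟨q1, q2⟩ := this
  have q3 := q2 (P - lo) (by omega)
  rw [show lo + (P - lo) = P by omega, List.drop_drop,
    ← segwin φ x y H (n+1) m t _ (by omega), ← segwin φ x y H (n+1) m (t+P) _ (by omega)] at q3
  apply q3
  apply seg_congr
  intro k hk
  rw [hy k (by omega)]
  rw [show pi φ x m + t + P + k = pi φ x m + (t + P) + k by omega]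

def qLen (φ : ℕ → List ℕ) (a b c d : ℕ) (f : List ℕ) : Bool :=
  decide (b < ((f.take a).flatMap φ).length) && decide (((f.take c).flatMap φ).length ≤ d)

theorem seg_take (x : ℕ → ℕ) (m n a : ℕ) (h : a ≤ n) : (seg x m n).take a = seg x m a := by
  obtain ⟨c, rfl⟩ := Nat.exists_eq_add_of_le h
  rw [seg_add, List.take_left' (seg_length _ _ _)]

theorem len_use (F : List (List ℕ)) (φ : ℕ → List ℕ) (a b c d n : ℕ)
    (h : F.all (qLen φ a b c d) = true) (x : ℕ → ℕ) (hF : ∀ m, seg x m n ∈ F)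
    (ha : a ≤ n) (hc : c ≤ n) (m : ℕ) :
    pi φ x m + b < pi φ x (m+a) ∧ pi φ x (m+c) ≤ pi φ x m + d := by
  have := List.all_eq_true.1 h _ (hF m)
  simp only [qLen, Bool.and_eq_true, decide_eq_true_eq] at this
  rw [seg_take x m n a ha, seg_take x m n c hc] at this
  rw [pi_len, pi_len]
  omega

/-- one desubstitution step -/
theorem step (F : List (List ℕ)) (φ : ℕ → List ℕ) (hφ : ∀ a, 0 < (φ a).length)
    (hφ2 : ∀ a, (φ a).length < 10) (R n d D c B : ℕ)
    (T : List (List ℕ × ℕ)) (h : loc F φ (qRec φ R T) = true)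
    (hl : F.all (qLen φ (D+1) (d+2*R) c B) = true) (ha : D+1 ≤ n+1) (hc : c ≤ n+1)
    (x y : ℕ → ℕ) (hF : ∀ m, seg x m (n+1) ∈ F) (H : Img φ x y) (i P : ℕ) (hB : B < P)
    (he : d + 2*R < P) (hy : ∀ k, k + d < P → y (i+k) = y (i+P+k)) :
    ∃ m p, c < p ∧ pi φ x (m+p) = pi φ x m + P ∧ ∀ k, k + D < p → x (m+k) = x (m+p+k) := by
  obtain ⟨z, H2⟩ := exists_img (an φ) (by intro a; rw [an_len]; exact hφ a) x
  have hL := len_use F φ _ _ _ _ _ hl x hF ha hc
  obtain ⟨m, p, h1, h2⟩ := desub φ hφ hφ2 x z H2 (d+2*R) D (fun m => (hL m).1) (i+R) P he (by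
    intro k hk
    have a1 := rec_use F φ hφ R n T h x y z hF H H2 (i+k)
    have a2 := rec_use F φ hφ R n T h x y z hF H H2 (i+P+k)
    rw [seg_congr y (i+k) (i+P+k) (2*R+1) (by
      intro j hj
      have := hy (k+j) (by omega)
      rw [Nat.add_assoc, this, Nat.add_assoc (i+P)]), ← a2] at a1
    rw [show i + R + k = i + k + R by omega, show i + R + P + k = i + P + k + R by omega]
    exact Option.some.inj a1)
  refine ⟨m, p, ?_, h1, h2⟩
  by_contra hcp
  have := pi_mono φ x (show m + p ≤ m + c by omega)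
  have := (hL m).2
  omega

end Pool.Agent.H.MP_fa571f_co
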