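import Pool.Agent.H.MP_fa571f_co.A

set_option autoImplicit false
set_option maxRecDepth 100000

namespace Pool.Agent.H.MP_fa571f_co

def hh : ℕ → List ℕ
  | 0 => [0,1]
  | 1 => [2,3]
  | 2 => [4]
  | 3 => [2,1]
  | _ => [0]

def gg : ℕ → List ℕ
  | 0 => [2,0,1,2,1,0]
  | 1 => [2,1]
  | 2 => [2,0]
  | 3 => [2,1,0]
  | _ => [2,0,1]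

def F : List (List ℕ) := [
  [0,1,0,4,2,1,0,1,2,3,0,1,0,4,2,3,0,1,2,3,4,2,1,0,1,2,3,0,1,0,4,2,1,0,1,2,3,4,2,1,0,4,2,3],
  [0,1,0,4,2,1,0,1,2,3,0,1,0,4,2,3,0,1,2,3,4,2,1,0,4,2,3,0,1,0,4,2,1,0,1,2,3,4,2,1,0,4,2,3],
  [0,1,0,4,2,1,0,1,2,3,4,2,1,0,4,2,3,0,1,0,4,2,1,0,1,2,3,0,1,0,4,2,3,0,1,2,3,4,2,1,0,1,2,3],
  [0,1,0,4,2,1,0,1,2,3,4,2,1,0,4,2,3,0,1,0,4,2,1,0,1,2,3,0,1,0,4,2,3,0,1,2,3,4,2,1,0,4,2,3],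
  [0,1,0,4,2,1,0,1,2,3,4,2,1,0,4,2,3,0,1,2,3,4,2,1,0,1,2,3,0,1,0,4,2,1,0,1,2,3,4,2,1,0,4,2],
  [0,1,0,4,2,1,0,1,2,3,4,2,1,0,4,2,3,0,1,2,3,4,2,1,0,1,2,3,0,1,0,4,2,3,0,1,2,3,4,2,1,0,4,2],
  [0,1,0,4,2,3,0,1,2,3,4,2,1,0,1,2,3,0,1,0,4,2,1,0,1,2,3,4,2,1,0,4,2,3,0,1,0,4,2,1,0,1,2,3],
  [0,1,0,4,2,3,0,1,2,3,4,2,1,0,1,2,3,0,1,0,4,2,1,0,1,2,3,4,2,1,0,4,2,3,0,1,2,3,4,2,1,0,1,2],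
  [0,1,0,4,2,3,0,1,2,3,4,2,1,0,4,2,3,0,1,0,4,2,1,0,1,2,3,0,1,0,4,2,3,0,1,2,3,4,2,1,0,1,2,3],
  [0,1,0,4,2,3,0,1,2,3,4,2,1,0,4,2,3,0,1,0,4,2,1,0,1,2,3,4,2,1,0,4,2,3,0,1,2,3,4,2,1,0,1,2],
  [0,1,2,3,0,1,0,4,2,1,0,1,2,3,4,2,1,0,4,2,3,0,1,0,4,2,1,0,1,2,3,0,1,0,4,2,3,0,1,2,3,4,2,1],
  [0,1,2,3,0,1,0,4,2,1,0,1,2,3,4,2,1,0,4,2,3,0,1,2,3,4,2,1,0,1,2,3,0,1,0,4,2,3,0,1,2,3,4,2],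
  [0,1,2,3,0,1,0,4,2,3,0,1,2,3,4,2,1,0,1,2,3,0,1,0,4,2,1,0,1,2,3,4,2,1,0,4,2,3,0,1,0,4,2,1],
  [0,1,2,3,0,1,0,4,2,3,0,1,2,3,4,2,1,0,1,2,3,0,1,0,4,2,1,0,1,2,3,4,2,1,0,4,2,3,0,1,2,3,4,2],
  [0,1,2,3,0,1,0,4,2,3,0,1,2,3,4,2,1,0,4,2,3,0,1,0,4,2,1,0,1,2,3,0,1,0,4,2,3,0,1,2,3,4,2,1],
  [0,1,2,3,0,1,0,4,2,3,0,1,2,3,4,2,1,0,4,2,3,0,1,0,4,2,1,0,1,2,3,4,2,1,0,4,2,3,0,1,2,3,4,2],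
  [0,1,2,3,4,2,1,0,1,2,3,0,1,0,4,2,1,0,1,2,3,4,2,1,0,4,2,3,0,1,0,4,2,1,0,1,2,3,0,1,0,4,2,3],
  [0,1,2,3,4,2,1,0,1,2,3,0,1,0,4,2,1,0,1,2,3,4,2,1,0,4,2,3,0,1,2,3,4,2,1,0,1,2,3,0,1,0,4,2],
  [0,1,2,3,4,2,1,0,1,2,3,0,1,0,4,2,3,0,1,2,3,4,2,1,0,4,2,3,0,1,0,4,2,1,0,1,2,3,0,1,0,4,2,3],
  [0,1,2,3,4,2,1,0,1,2,3,0,1,0,4,2,3,0,1,2,3,4,2,1,0,4,2,3,0,1,0,4,2,1,0,1,2,3,4,2,1,0,4,2],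
  [0,1,2,3,4,2,1,0,4,2,3,0,1,0,4,2,1,0,1,2,3,0,1,0,4,2,3,0,1,2,3,4,2,1,0,1,2,3,0,1,0,4,2,1],
  [0,1,2,3,4,2,1,0,4,2,3,0,1,0,4,2,1,0,1,2,3,0,1,0,4,2,3,0,1,2,3,4,2,1,0,4,2,3,0,1,0,4,2,1],
  [0,1,2,3,4,2,1,0,4,2,3,0,1,0,4,2,1,0,1,2,3,4,2,1,0,4,2,3,0,1,2,3,4,2,1,0,1,2,3,0,1,0,4,2],
  [0,1,2,3,4,2,1,0,4,2,3,0,1,2,3,4,2,1,0,1,2,3,0,1,0,4,2,1,0,1,2,3,4,2,1,0,4,2,3,0,1,0,4,2],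
  [0,1,2,3,4,2,1,0,4,2,3,0,1,2,3,4,2,1,0,1,2,3,0,1,0,4,2,3,0,1,2,3,4,2,1,0,4,2,3,0,1,0,4,2],
  [0,4,2,1,0,1,2,3,0,1,0,4,2,3,0,1,2,3,4,2,1,0,1,2,3,0,1,0,4,2,1,0,1,2,3,4,2,1,0,4,2,3,0,1],
  [0,4,2,1,0,1,2,3,0,1,0,4,2,3,0,1,2,3,4,2,1,0,4,2,3,0,1,0,4,2,1,0,1,2,3,4,2,1,0,4,2,3,0,1],
  [0,4,2,1,0,1,2,3,4,2,1,0,4,2,3,0,1,0,4,2,1,0,1,2,3,0,1,0,4,2,3,0,1,2,3,4,2,1,0,1,2,3,0,1],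
  [0,4,2,1,0,1,2,3,4,2,1,0,4,2,3,0,1,0,4,2,1,0,1,2,3,0,1,0,4,2,3,0,1,2,3,4,2,1,0,4,2,3,0,1],
  [0,4,2,1,0,1,2,3,4,2,1,0,4,2,3,0,1,2,3,4,2,1,0,1,2,3,0,1,0,4,2,1,0,1,2,3,4,2,1,0,4,2,3,0],
  [0,4,2,1,0,1,2,3,4,2,1,0,4,2,3,0,1,2,3,4,2,1,0,1,2,3,0,1,0,4,2,3,0,1,2,3,4,2,1,0,4,2,3,0],
  [0,4,2,3,0,1,0,4,2,1,0,1,2,3,0,1,0,4,2,3,0,1,2,3,4,2,1,0,1,2,3,0,1,0,4,2,1,0,1,2,3,4,2,1],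
  [0,4,2,3,0,1,0,4,2,1,0,1,2,3,0,1,0,4,2,3,0,1,2,3,4,2,1,0,4,2,3,0,1,0,4,2,1,0,1,2,3,4,2,1],
  [0,4,2,3,0,1,0,4,2,1,0,1,2,3,4,2,1,0,4,2,3,0,1,2,3,4,2,1,0,1,2,3,0,1,0,4,2,1,0,1,2,3,4,2],
  [0,4,2,3,0,1,0,4,2,1,0,1,2,3,4,2,1,0,4,2,3,0,1,2,3,4,2,1,0,1,2,3,0,1,0,4,2,3,0,1,2,3,4,2],
  [0,4,2,3,0,1,2,3,4,2,1,0,1,2,3,0,1,0,4,2,1,0,1,2,3,4,2,1,0,4,2,3,0,1,0,4,2,1,0,1,2,3,0,1],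
  [0,4,2,3,0,1,2,3,4,2,1,0,1,2,3,0,1,0,4,2,1,0,1,2,3,4,2,1,0,4,2,3,0,1,2,3,4,2,1,0,1,2,3,0],
  [0,4,2,3,0,1,2,3,4,2,1,0,1,2,3,0,1,0,4,2,3,0,1,2,3,4,2,1,0,4,2,3,0,1,0,4,2,1,0,1,2,3,0,1],
  [0,4,2,3,0,1,2,3,4,2,1,0,1,2,3,0,1,0,4,2,3,0,1,2,3,4,2,1,0,4,2,3,0,1,0,4,2,1,0,1,2,3,4,2],
  [0,4,2,3,0,1,2,3,4,2,1,0,4,2,3,0,1,0,4,2,1,0,1,2,3,0,1,0,4,2,3,0,1,2,3,4,2,1,0,1,2,3,0,1],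
  [0,4,2,3,0,1,2,3,4,2,1,0,4,2,3,0,1,0,4,2,1,0,1,2,3,4,2,1,0,4,2,3,0,1,2,3,4,2,1,0,1,2,3,0],
  [1,0,1,2,3,0,1,0,4,2,1,0,1,2,3,4,2,1,0,4,2,3,0,1,0,4,2,1,0,1,2,3,0,1,0,4,2,3,0,1,2,3,4,2],
  [1,0,1,2,3,0,1,0,4,2,1,0,1,2,3,4,2,1,0,4,2,3,0,1,2,3,4,2,1,0,1,2,3,0,1,0,4,2,3,0,1,2,3,4],
  [1,0,1,2,3,0,1,0,4,2,3,0,1,2,3,4,2,1,0,1,2,3,0,1,0,4,2,1,0,1,2,3,4,2,1,0,4,2,3,0,1,0,4,2],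
  [1,0,1,2,3,0,1,0,4,2,3,0,1,2,3,4,2,1,0,1,2,3,0,1,0,4,2,1,0,1,2,3,4,2,1,0,4,2,3,0,1,2,3,4],
  [1,0,1,2,3,0,1,0,4,2,3,0,1,2,3,4,2,1,0,4,2,3,0,1,0,4,2,1,0,1,2,3,0,1,0,4,2,3,0,1,2,3,4,2],
  [1,0,1,2,3,0,1,0,4,2,3,0,1,2,3,4,2,1,0,4,2,3,0,1,0,4,2,1,0,1,2,3,4,2,1,0,4,2,3,0,1,2,3,4],
  [1,0,1,2,3,4,2,1,0,4,2,3,0,1,0,4,2,1,0,1,2,3,0,1,0,4,2,3,0,1,2,3,4,2,1,0,1,2,3,0,1,0,4,2],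
  [1,0,1,2,3,4,2,1,0,4,2,3,0,1,0,4,2,1,0,1,2,3,0,1,0,4,2,3,0,1,2,3,4,2,1,0,4,2,3,0,1,0,4,2],
  [1,0,1,2,3,4,2,1,0,4,2,3,0,1,2,3,4,2,1,0,1,2,3,0,1,0,4,2,1,0,1,2,3,4,2,1,0,4,2,3,0,1,0,4],
  [1,0,1,2,3,4,2,1,0,4,2,3,0,1,2,3,4,2,1,0,1,2,3,0,1,0,4,2,3,0,1,2,3,4,2,1,0,4,2,3,0,1,0,4],
  [1,0,4,2,1,0,1,2,3,0,1,0,4,2,3,0,1,2,3,4,2,1,0,1,2,3,0,1,0,4,2,1,0,1,2,3,4,2,1,0,4,2,3,0],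
  [1,0,4,2,1,0,1,2,3,0,1,0,4,2,3,0,1,2,3,4,2,1,0,4,2,3,0,1,0,4,2,1,0,1,2,3,4,2,1,0,4,2,3,0],
  [1,0,4,2,1,0,1,2,3,4,2,1,0,4,2,3,0,1,0,4,2,1,0,1,2,3,0,1,0,4,2,3,0,1,2,3,4,2,1,0,1,2,3,0],
  [1,0,4,2,1,0,1,2,3,4,2,1,0,4,2,3,0,1,0,4,2,1,0,1,2,3,0,1,0,4,2,3,0,1,2,3,4,2,1,0,4,2,3,0],
  [1,0,4,2,1,0,1,2,3,4,2,1,0,4,2,3,0,1,2,3,4,2,1,0,1,2,3,0,1,0,4,2,1,0,1,2,3,4,2,1,0,4,2,3],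
  [1,0,4,2,1,0,1,2,3,4,2,1,0,4,2,3,0,1,2,3,4,2,1,0,1,2,3,0,1,0,4,2,3,0,1,2,3,4,2,1,0,4,2,3],
  [1,0,4,2,3,0,1,0,4,2,1,0,1,2,3,0,1,0,4,2,3,0,1,2,3,4,2,1,0,1,2,3,0,1,0,4,2,1,0,1,2,3,4,2],
  [1,0,4,2,3,0,1,0,4,2,1,0,1,2,3,0,1,0,4,2,3,0,1,2,3,4,2,1,0,4,2,3,0,1,0,4,2,1,0,1,2,3,4,2],
  [1,0,4,2,3,0,1,0,4,2,1,0,1,2,3,4,2,1,0,4,2,3,0,1,2,3,4,2,1,0,1,2,3,0,1,0,4,2,1,0,1,2,3,4],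
  [1,0,4,2,3,0,1,0,4,2,1,0,1,2,3,4,2,1,0,4,2,3,0,1,2,3,4,2,1,0,1,2,3,0,1,0,4,2,3,0,1,2,3,4],
  [1,0,4,2,3,0,1,2,3,4,2,1,0,1,2,3,0,1,0,4,2,1,0,1,2,3,4,2,1,0,4,2,3,0,1,0,4,2,1,0,1,2,3,0],
  [1,0,4,2,3,0,1,2,3,4,2,1,0,1,2,3,0,1,0,4,2,1,0,1,2,3,4,2,1,0,4,2,3,0,1,2,3,4,2,1,0,1,2,3],
  [1,0,4,2,3,0,1,2,3,4,2,1,0,1,2,3,0,1,0,4,2,3,0,1,2,3,4,2,1,0,4,2,3,0,1,0,4,2,1,0,1,2,3,0],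
  [1,0,4,2,3,0,1,2,3,4,2,1,0,1,2,3,0,1,0,4,2,3,0,1,2,3,4,2,1,0,4,2,3,0,1,0,4,2,1,0,1,2,3,4],
  [1,0,4,2,3,0,1,2,3,4,2,1,0,4,2,3,0,1,0,4,2,1,0,1,2,3,0,1,0,4,2,3,0,1,2,3,4,2,1,0,1,2,3,0],
  [1,0,4,2,3,0,1,2,3,4,2,1,0,4,2,3,0,1,0,4,2,1,0,1,2,3,4,2,1,0,4,2,3,0,1,2,3,4,2,1,0,1,2,3],
  [1,2,3,0,1,0,4,2,1,0,1,2,3,4,2,1,0,4,2,3,0,1,0,4,2,1,0,1,2,3,0,1,0,4,2,3,0,1,2,3,4,2,1,0],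
  [1,2,3,0,1,0,4,2,1,0,1,2,3,4,2,1,0,4,2,3,0,1,2,3,4,2,1,0,1,2,3,0,1,0,4,2,3,0,1,2,3,4,2,1],
  [1,2,3,0,1,0,4,2,3,0,1,2,3,4,2,1,0,1,2,3,0,1,0,4,2,1,0,1,2,3,4,2,1,0,4,2,3,0,1,0,4,2,1,0],
  [1,2,3,0,1,0,4,2,3,0,1,2,3,4,2,1,0,1,2,3,0,1,0,4,2,1,0,1,2,3,4,2,1,0,4,2,3,0,1,2,3,4,2,1],
  [1,2,3,0,1,0,4,2,3,0,1,2,3,4,2,1,0,4,2,3,0,1,0,4,2,1,0,1,2,3,0,1,0,4,2,3,0,1,2,3,4,2,1,0],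
  [1,2,3,0,1,0,4,2,3,0,1,2,3,4,2,1,0,4,2,3,0,1,0,4,2,1,0,1,2,3,4,2,1,0,4,2,3,0,1,2,3,4,2,1],
  [1,2,3,4,2,1,0,1,2,3,0,1,0,4,2,1,0,1,2,3,4,2,1,0,4,2,3,0,1,0,4,2,1,0,1,2,3,0,1,0,4,2,3,0],
  [1,2,3,4,2,1,0,1,2,3,0,1,0,4,2,1,0,1,2,3,4,2,1,0,4,2,3,0,1,2,3,4,2,1,0,1,2,3,0,1,0,4,2,3],
  [1,2,3,4,2,1,0,1,2,3,0,1,0,4,2,3,0,1,2,3,4,2,1,0,4,2,3,0,1,0,4,2,1,0,1,2,3,0,1,0,4,2,3,0],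
  [1,2,3,4,2,1,0,1,2,3,0,1,0,4,2,3,0,1,2,3,4,2,1,0,4,2,3,0,1,0,4,2,1,0,1,2,3,4,2,1,0,4,2,3],
  [1,2,3,4,2,1,0,4,2,3,0,1,0,4,2,1,0,1,2,3,0,1,0,4,2,3,0,1,2,3,4,2,1,0,1,2,3,0,1,0,4,2,1,0],
  [1,2,3,4,2,1,0,4,2,3,0,1,0,4,2,1,0,1,2,3,0,1,0,4,2,3,0,1,2,3,4,2,1,0,4,2,3,0,1,0,4,2,1,0],
  [1,2,3,4,2,1,0,4,2,3,0,1,0,4,2,1,0,1,2,3,4,2,1,0,4,2,3,0,1,2,3,4,2,1,0,1,2,3,0,1,0,4,2,1],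
  [1,2,3,4,2,1,0,4,2,3,0,1,0,4,2,1,0,1,2,3,4,2,1,0,4,2,3,0,1,2,3,4,2,1,0,1,2,3,0,1,0,4,2,3],
  [1,2,3,4,2,1,0,4,2,3,0,1,2,3,4,2,1,0,1,2,3,0,1,0,4,2,1,0,1,2,3,4,2,1,0,4,2,3,0,1,0,4,2,1],
  [1,2,3,4,2,1,0,4,2,3,0,1,2,3,4,2,1,0,1,2,3,0,1,0,4,2,3,0,1,2,3,4,2,1,0,4,2,3,0,1,0,4,2,1],
  [2,1,0,1,2,3,0,1,0,4,2,1,0,1,2,3,4,2,1,0,4,2,3,0,1,0,4,2,1,0,1,2,3,0,1,0,4,2,3,0,1,2,3,4],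
  [2,1,0,1,2,3,0,1,0,4,2,1,0,1,2,3,4,2,1,0,4,2,3,0,1,2,3,4,2,1,0,1,2,3,0,1,0,4,2,3,0,1,2,3],
  [2,1,0,1,2,3,0,1,0,4,2,3,0,1,2,3,4,2,1,0,1,2,3,0,1,0,4,2,1,0,1,2,3,4,2,1,0,4,2,3,0,1,0,4],
  [2,1,0,1,2,3,0,1,0,4,2,3,0,1,2,3,4,2,1,0,1,2,3,0,1,0,4,2,1,0,1,2,3,4,2,1,0,4,2,3,0,1,2,3],
  [2,1,0,1,2,3,0,1,0,4,2,3,0,1,2,3,4,2,1,0,4,2,3,0,1,0,4,2,1,0,1,2,3,0,1,0,4,2,3,0,1,2,3,4],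
  [2,1,0,1,2,3,0,1,0,4,2,3,0,1,2,3,4,2,1,0,4,2,3,0,1,0,4,2,1,0,1,2,3,4,2,1,0,4,2,3,0,1,2,3],
  [2,1,0,1,2,3,4,2,1,0,4,2,3,0,1,0,4,2,1,0,1,2,3,0,1,0,4,2,3,0,1,2,3,4,2,1,0,1,2,3,0,1,0,4],
  [2,1,0,1,2,3,4,2,1,0,4,2,3,0,1,0,4,2,1,0,1,2,3,0,1,0,4,2,3,0,1,2,3,4,2,1,0,4,2,3,0,1,0,4],
  [2,1,0,1,2,3,4,2,1,0,4,2,3,0,1,2,3,4,2,1,0,1,2,3,0,1,0,4,2,1,0,1,2,3,4,2,1,0,4,2,3,0,1,0],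
  [2,1,0,1,2,3,4,2,1,0,4,2,3,0,1,2,3,4,2,1,0,1,2,3,0,1,0,4,2,3,0,1,2,3,4,2,1,0,4,2,3,0,1,0],
  [2,1,0,4,2,3,0,1,0,4,2,1,0,1,2,3,0,1,0,4,2,3,0,1,2,3,4,2,1,0,1,2,3,0,1,0,4,2,1,0,1,2,3,4],
  [2,1,0,4,2,3,0,1,0,4,2,1,0,1,2,3,0,1,0,4,2,3,0,1,2,3,4,2,1,0,4,2,3,0,1,0,4,2,1,0,1,2,3,4],
  [2,1,0,4,2,3,0,1,0,4,2,1,0,1,2,3,4,2,1,0,4,2,3,0,1,2,3,4,2,1,0,1,2,3,0,1,0,4,2,1,0,1,2,3],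
  [2,1,0,4,2,3,0,1,0,4,2,1,0,1,2,3,4,2,1,0,4,2,3,0,1,2,3,4,2,1,0,1,2,3,0,1,0,4,2,3,0,1,2,3],
  [2,1,0,4,2,3,0,1,2,3,4,2,1,0,1,2,3,0,1,0,4,2,1,0,1,2,3,4,2,1,0,4,2,3,0,1,0,4,2,1,0,1,2,3],
  [2,1,0,4,2,3,0,1,2,3,4,2,1,0,1,2,3,0,1,0,4,2,3,0,1,2,3,4,2,1,0,4,2,3,0,1,0,4,2,1,0,1,2,3],
  [2,3,0,1,0,4,2,1,0,1,2,3,0,1,0,4,2,3,0,1,2,3,4,2,1,0,1,2,3,0,1,0,4,2,1,0,1,2,3,4,2,1,0,4],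
  [2,3,0,1,0,4,2,1,0,1,2,3,0,1,0,4,2,3,0,1,2,3,4,2,1,0,4,2,3,0,1,0,4,2,1,0,1,2,3,4,2,1,0,4],
  [2,3,0,1,0,4,2,1,0,1,2,3,4,2,1,0,4,2,3,0,1,0,4,2,1,0,1,2,3,0,1,0,4,2,3,0,1,2,3,4,2,1,0,1],
  [2,3,0,1,0,4,2,1,0,1,2,3,4,2,1,0,4,2,3,0,1,0,4,2,1,0,1,2,3,0,1,0,4,2,3,0,1,2,3,4,2,1,0,4],
  [2,3,0,1,0,4,2,1,0,1,2,3,4,2,1,0,4,2,3,0,1,2,3,4,2,1,0,1,2,3,0,1,0,4,2,1,0,1,2,3,4,2,1,0],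
  [2,3,0,1,0,4,2,1,0,1,2,3,4,2,1,0,4,2,3,0,1,2,3,4,2,1,0,1,2,3,0,1,0,4,2,3,0,1,2,3,4,2,1,0],
  [2,3,0,1,0,4,2,3,0,1,2,3,4,2,1,0,1,2,3,0,1,0,4,2,1,0,1,2,3,4,2,1,0,4,2,3,0,1,0,4,2,1,0,1],
  [2,3,0,1,0,4,2,3,0,1,2,3,4,2,1,0,1,2,3,0,1,0,4,2,1,0,1,2,3,4,2,1,0,4,2,3,0,1,2,3,4,2,1,0],
  [2,3,0,1,0,4,2,3,0,1,2,3,4,2,1,0,4,2,3,0,1,0,4,2,1,0,1,2,3,0,1,0,4,2,3,0,1,2,3,4,2,1,0,1],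
  [2,3,0,1,0,4,2,3,0,1,2,3,4,2,1,0,4,2,3,0,1,0,4,2,1,0,1,2,3,4,2,1,0,4,2,3,0,1,2,3,4,2,1,0],
  [2,3,0,1,2,3,4,2,1,0,1,2,3,0,1,0,4,2,1,0,1,2,3,4,2,1,0,4,2,3,0,1,0,4,2,1,0,1,2,3,0,1,0,4],
  [2,3,0,1,2,3,4,2,1,0,1,2,3,0,1,0,4,2,1,0,1,2,3,4,2,1,0,4,2,3,0,1,2,3,4,2,1,0,1,2,3,0,1,0],
  [2,3,0,1,2,3,4,2,1,0,1,2,3,0,1,0,4,2,3,0,1,2,3,4,2,1,0,4,2,3,0,1,0,4,2,1,0,1,2,3,0,1,0,4],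
  [2,3,0,1,2,3,4,2,1,0,1,2,3,0,1,0,4,2,3,0,1,2,3,4,2,1,0,4,2,3,0,1,0,4,2,1,0,1,2,3,4,2,1,0],
  [2,3,0,1,2,3,4,2,1,0,4,2,3,0,1,0,4,2,1,0,1,2,3,0,1,0,4,2,3,0,1,2,3,4,2,1,0,1,2,3,0,1,0,4],
  [2,3,0,1,2,3,4,2,1,0,4,2,3,0,1,0,4,2,1,0,1,2,3,4,2,1,0,4,2,3,0,1,2,3,4,2,1,0,1,2,3,0,1,0],
  [2,3,4,2,1,0,1,2,3,0,1,0,4,2,1,0,1,2,3,4,2,1,0,4,2,3,0,1,0,4,2,1,0,1,2,3,0,1,0,4,2,3,0,1],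
  [2,3,4,2,1,0,1,2,3,0,1,0,4,2,1,0,1,2,3,4,2,1,0,4,2,3,0,1,2,3,4,2,1,0,1,2,3,0,1,0,4,2,3,0],
  [2,3,4,2,1,0,1,2,3,0,1,0,4,2,3,0,1,2,3,4,2,1,0,4,2,3,0,1,0,4,2,1,0,1,2,3,0,1,0,4,2,3,0,1],
  [2,3,4,2,1,0,1,2,3,0,1,0,4,2,3,0,1,2,3,4,2,1,0,4,2,3,0,1,0,4,2,1,0,1,2,3,4,2,1,0,4,2,3,0],
  [2,3,4,2,1,0,4,2,3,0,1,0,4,2,1,0,1,2,3,0,1,0,4,2,3,0,1,2,3,4,2,1,0,1,2,3,0,1,0,4,2,1,0,1],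
  [2,3,4,2,1,0,4,2,3,0,1,0,4,2,1,0,1,2,3,0,1,0,4,2,3,0,1,2,3,4,2,1,0,4,2,3,0,1,0,4,2,1,0,1],
  [2,3,4,2,1,0,4,2,3,0,1,0,4,2,1,0,1,2,3,4,2,1,0,4,2,3,0,1,2,3,4,2,1,0,1,2,3,0,1,0,4,2,1,0],
  [2,3,4,2,1,0,4,2,3,0,1,0,4,2,1,0,1,2,3,4,2,1,0,4,2,3,0,1,2,3,4,2,1,0,1,2,3,0,1,0,4,2,3,0],
  [2,3,4,2,1,0,4,2,3,0,1,2,3,4,2,1,0,1,2,3,0,1,0,4,2,1,0,1,2,3,4,2,1,0,4,2,3,0,1,0,4,2,1,0],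
  [2,3,4,2,1,0,4,2,3,0,1,2,3,4,2,1,0,1,2,3,0,1,0,4,2,3,0,1,2,3,4,2,1,0,4,2,3,0,1,0,4,2,1,0],
  [3,0,1,0,4,2,1,0,1,2,3,0,1,0,4,2,3,0,1,2,3,4,2,1,0,1,2,3,0,1,0,4,2,1,0,1,2,3,4,2,1,0,4,2],
  [3,0,1,0,4,2,1,0,1,2,3,0,1,0,4,2,3,0,1,2,3,4,2,1,0,4,2,3,0,1,0,4,2,1,0,1,2,3,4,2,1,0,4,2],
  [3,0,1,0,4,2,1,0,1,2,3,4,2,1,0,4,2,3,0,1,0,4,2,1,0,1,2,3,0,1,0,4,2,3,0,1,2,3,4,2,1,0,1,2],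
  [3,0,1,0,4,2,1,0,1,2,3,4,2,1,0,4,2,3,0,1,0,4,2,1,0,1,2,3,0,1,0,4,2,3,0,1,2,3,4,2,1,0,4,2],
  [3,0,1,0,4,2,1,0,1,2,3,4,2,1,0,4,2,3,0,1,2,3,4,2,1,0,1,2,3,0,1,0,4,2,1,0,1,2,3,4,2,1,0,4],
  [3,0,1,0,4,2,1,0,1,2,3,4,2,1,0,4,2,3,0,1,2,3,4,2,1,0,1,2,3,0,1,0,4,2,3,0,1,2,3,4,2,1,0,4],
  [3,0,1,0,4,2,3,0,1,2,3,4,2,1,0,1,2,3,0,1,0,4,2,1,0,1,2,3,4,2,1,0,4,2,3,0,1,0,4,2,1,0,1,2],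
  [3,0,1,0,4,2,3,0,1,2,3,4,2,1,0,1,2,3,0,1,0,4,2,1,0,1,2,3,4,2,1,0,4,2,3,0,1,2,3,4,2,1,0,1],
  [3,0,1,0,4,2,3,0,1,2,3,4,2,1,0,4,2,3,0,1,0,4,2,1,0,1,2,3,0,1,0,4,2,3,0,1,2,3,4,2,1,0,1,2],
  [3,0,1,0,4,2,3,0,1,2,3,4,2,1,0,4,2,3,0,1,0,4,2,1,0,1,2,3,4,2,1,0,4,2,3,0,1,2,3,4,2,1,0,1],
  [3,0,1,2,3,4,2,1,0,1,2,3,0,1,0,4,2,1,0,1,2,3,4,2,1,0,4,2,3,0,1,0,4,2,1,0,1,2,3,0,1,0,4,2],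
  [3,0,1,2,3,4,2,1,0,1,2,3,0,1,0,4,2,1,0,1,2,3,4,2,1,0,4,2,3,0,1,2,3,4,2,1,0,1,2,3,0,1,0,4],
  [3,0,1,2,3,4,2,1,0,1,2,3,0,1,0,4,2,3,0,1,2,3,4,2,1,0,4,2,3,0,1,0,4,2,1,0,1,2,3,0,1,0,4,2],
  [3,0,1,2,3,4,2,1,0,1,2,3,0,1,0,4,2,3,0,1,2,3,4,2,1,0,4,2,3,0,1,0,4,2,1,0,1,2,3,4,2,1,0,4],
  [3,0,1,2,3,4,2,1,0,4,2,3,0,1,0,4,2,1,0,1,2,3,0,1,0,4,2,3,0,1,2,3,4,2,1,0,1,2,3,0,1,0,4,2],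
  [3,0,1,2,3,4,2,1,0,4,2,3,0,1,0,4,2,1,0,1,2,3,4,2,1,0,4,2,3,0,1,2,3,4,2,1,0,1,2,3,0,1,0,4],
  [3,4,2,1,0,1,2,3,0,1,0,4,2,1,0,1,2,3,4,2,1,0,4,2,3,0,1,0,4,2,1,0,1,2,3,0,1,0,4,2,3,0,1,2],
  [3,4,2,1,0,1,2,3,0,1,0,4,2,1,0,1,2,3,4,2,1,0,4,2,3,0,1,2,3,4,2,1,0,1,2,3,0,1,0,4,2,3,0,1],
  [3,4,2,1,0,1,2,3,0,1,0,4,2,3,0,1,2,3,4,2,1,0,4,2,3,0,1,0,4,2,1,0,1,2,3,0,1,0,4,2,3,0,1,2],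
  [3,4,2,1,0,1,2,3,0,1,0,4,2,3,0,1,2,3,4,2,1,0,4,2,3,0,1,0,4,2,1,0,1,2,3,4,2,1,0,4,2,3,0,1],
  [3,4,2,1,0,4,2,3,0,1,0,4,2,1,0,1,2,3,0,1,0,4,2,3,0,1,2,3,4,2,1,0,1,2,3,0,1,0,4,2,1,0,1,2],
  [3,4,2,1,0,4,2,3,0,1,0,4,2,1,0,1,2,3,0,1,0,4,2,3,0,1,2,3,4,2,1,0,4,2,3,0,1,0,4,2,1,0,1,2],
  [3,4,2,1,0,4,2,3,0,1,0,4,2,1,0,1,2,3,4,2,1,0,4,2,3,0,1,2,3,4,2,1,0,1,2,3,0,1,0,4,2,1,0,1],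
  [3,4,2,1,0,4,2,3,0,1,0,4,2,1,0,1,2,3,4,2,1,0,4,2,3,0,1,2,3,4,2,1,0,1,2,3,0,1,0,4,2,3,0,1],
  [3,4,2,1,0,4,2,3,0,1,2,3,4,2,1,0,1,2,3,0,1,0,4,2,1,0,1,2,3,4,2,1,0,4,2,3,0,1,0,4,2,1,0,1],
  [3,4,2,1,0,4,2,3,0,1,2,3,4,2,1,0,1,2,3,0,1,0,4,2,3,0,1,2,3,4,2,1,0,4,2,3,0,1,0,4,2,1,0,1],
  [4,2,1,0,1,2,3,0,1,0,4,2,1,0,1,2,3,4,2,1,0,4,2,3,0,1,0,4,2,1,0,1,2,3,0,1,0,4,2,3,0,1,2,3],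
  [4,2,1,0,1,2,3,0,1,0,4,2,1,0,1,2,3,4,2,1,0,4,2,3,0,1,2,3,4,2,1,0,1,2,3,0,1,0,4,2,3,0,1,2],
  [4,2,1,0,1,2,3,0,1,0,4,2,3,0,1,2,3,4,2,1,0,1,2,3,0,1,0,4,2,1,0,1,2,3,4,2,1,0,4,2,3,0,1,0],
  [4,2,1,0,1,2,3,0,1,0,4,2,3,0,1,2,3,4,2,1,0,1,2,3,0,1,0,4,2,1,0,1,2,3,4,2,1,0,4,2,3,0,1,2],
  [4,2,1,0,1,2,3,0,1,0,4,2,3,0,1,2,3,4,2,1,0,4,2,3,0,1,0,4,2,1,0,1,2,3,0,1,0,4,2,3,0,1,2,3],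
  [4,2,1,0,1,2,3,0,1,0,4,2,3,0,1,2,3,4,2,1,0,4,2,3,0,1,0,4,2,1,0,1,2,3,4,2,1,0,4,2,3,0,1,2],
  [4,2,1,0,1,2,3,4,2,1,0,4,2,3,0,1,0,4,2,1,0,1,2,3,0,1,0,4,2,3,0,1,2,3,4,2,1,0,1,2,3,0,1,0],
  [4,2,1,0,1,2,3,4,2,1,0,4,2,3,0,1,0,4,2,1,0,1,2,3,0,1,0,4,2,3,0,1,2,3,4,2,1,0,4,2,3,0,1,0],
  [4,2,1,0,1,2,3,4,2,1,0,4,2,3,0,1,2,3,4,2,1,0,1,2,3,0,1,0,4,2,1,0,1,2,3,4,2,1,0,4,2,3,0,1],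
  [4,2,1,0,1,2,3,4,2,1,0,4,2,3,0,1,2,3,4,2,1,0,1,2,3,0,1,0,4,2,3,0,1,2,3,4,2,1,0,4,2,3,0,1],
  [4,2,1,0,4,2,3,0,1,0,4,2,1,0,1,2,3,0,1,0,4,2,3,0,1,2,3,4,2,1,0,1,2,3,0,1,0,4,2,1,0,1,2,3],
  [4,2,1,0,4,2,3,0,1,0,4,2,1,0,1,2,3,0,1,0,4,2,3,0,1,2,3,4,2,1,0,4,2,3,0,1,0,4,2,1,0,1,2,3],
  [4,2,1,0,4,2,3,0,1,0,4,2,1,0,1,2,3,4,2,1,0,4,2,3,0,1,2,3,4,2,1,0,1,2,3,0,1,0,4,2,1,0,1,2],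
  [4,2,1,0,4,2,3,0,1,0,4,2,1,0,1,2,3,4,2,1,0,4,2,3,0,1,2,3,4,2,1,0,1,2,3,0,1,0,4,2,3,0,1,2],
  [4,2,1,0,4,2,3,0,1,2,3,4,2,1,0,1,2,3,0,1,0,4,2,1,0,1,2,3,4,2,1,0,4,2,3,0,1,0,4,2,1,0,1,2],
  [4,2,1,0,4,2,3,0,1,2,3,4,2,1,0,1,2,3,0,1,0,4,2,3,0,1,2,3,4,2,1,0,4,2,3,0,1,0,4,2,1,0,1,2],
  [4,2,3,0,1,0,4,2,1,0,1,2,3,0,1,0,4,2,3,0,1,2,3,4,2,1,0,1,2,3,0,1,0,4,2,1,0,1,2,3,4,2,1,0],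
  [4,2,3,0,1,0,4,2,1,0,1,2,3,0,1,0,4,2,3,0,1,2,3,4,2,1,0,4,2,3,0,1,0,4,2,1,0,1,2,3,4,2,1,0],
  [4,2,3,0,1,0,4,2,1,0,1,2,3,4,2,1,0,4,2,3,0,1,2,3,4,2,1,0,1,2,3,0,1,0,4,2,1,0,1,2,3,4,2,1],
  [4,2,3,0,1,0,4,2,1,0,1,2,3,4,2,1,0,4,2,3,0,1,2,3,4,2,1,0,1,2,3,0,1,0,4,2,3,0,1,2,3,4,2,1],
  [4,2,3,0,1,2,3,4,2,1,0,1,2,3,0,1,0,4,2,1,0,1,2,3,4,2,1,0,4,2,3,0,1,0,4,2,1,0,1,2,3,0,1,0],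
  [4,2,3,0,1,2,3,4,2,1,0,1,2,3,0,1,0,4,2,1,0,1,2,3,4,2,1,0,4,2,3,0,1,2,3,4,2,1,0,1,2,3,0,1],
  [4,2,3,0,1,2,3,4,2,1,0,1,2,3,0,1,0,4,2,3,0,1,2,3,4,2,1,0,4,2,3,0,1,0,4,2,1,0,1,2,3,0,1,0],
  [4,2,3,0,1,2,3,4,2,1,0,1,2,3,0,1,0,4,2,3,0,1,2,3,4,2,1,0,4,2,3,0,1,0,4,2,1,0,1,2,3,4,2,1],
  [4,2,3,0,1,2,3,4,2,1,0,4,2,3,0,1,0,4,2,1,0,1,2,3,0,1,0,4,2,3,0,1,2,3,4,2,1,0,1,2,3,0,1,0],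
  [4,2,3,0,1,2,3,4,2,1,0,4,2,3,0,1,0,4,2,1,0,1,2,3,4,2,1,0,4,2,3,0,1,2,3,4,2,1,0,1,2,3,0,1]]

def Th : List (List ℕ × ℕ) := [
  ([0,1,0],1),
  ([0,1,2],1),
  ([0,4,2],20),
  ([1,0,1],0),
  ([1,0,4],40),
  ([1,2,3],10),
  ([2,1,0],31),
  ([2,3,0],11),
  ([2,3,4],11),
  ([3,0,1],0),
  ([3,4,2],20),
  ([4,2,1],30),
  ([4,2,3],10)]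

def Tg : List (List ℕ × ℕ) := [
  ([0,1,2,0,2,1,0,2,0],30),
  ([0,1,2,0,2,1,2,0,1],10),
  ([0,1,2,1,0,2,0,1,2],5),
  ([0,1,2,1,0,2,1,2,0],5),
  ([0,2,0,1,2,0,2,1,0],20),
  ([0,2,0,1,2,0,2,1,2],20),
  ([0,2,0,1,2,1,0,2,1],3),
  ([0,2,1,0,2,0,1,2,0],40),
  ([0,2,1,0,2,0,1,2,1],0),
  ([0,2,1,2,0,1,2,1,0],1),
  ([0,2,1,2,0,2,1,0,2],21),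
  ([1,0,2,0,1,2,0,2,1],42),
  ([1,0,2,0,1,2,1,0,2],2),
  ([1,0,2,1,2,0,1,2,1],0),
  ([1,0,2,1,2,0,2,1,0],20),
  ([1,2,0,1,2,1,0,2,0],3),
  ([1,2,0,1,2,1,0,2,1],3),
  ([1,2,0,2,1,0,2,0,1],31),
  ([1,2,0,2,1,2,0,1,2],11),
  ([1,2,1,0,2,0,1,2,0],40),
  ([1,2,1,0,2,1,2,0,1],10),
  ([1,2,1,0,2,1,2,0,2],10),
  ([2,0,1,2,0,2,1,0,2],21),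
  ([2,0,1,2,0,2,1,2,0],21),
  ([2,0,1,2,1,0,2,0,1],4),
  ([2,0,1,2,1,0,2,1,2],4),
  ([2,0,2,1,0,2,0,1,2],32),
  ([2,0,2,1,2,0,1,2,1],0),
  ([2,1,0,2,0,1,2,0,2],41),
  ([2,1,0,2,0,1,2,1,0],1),
  ([2,1,0,2,1,2,0,1,2],11),
  ([2,1,0,2,1,2,0,2,1],11),
  ([2,1,2,0,1,2,1,0,2],2),
  ([2,1,2,0,2,1,0,2,0],30)]

theorem hh_pos : ∀ a, 0 < (hh a).length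
  | 0 | 1 | 2 | 3 | _+4 => by simp [hh]
theorem hh_lt : ∀ a, (hh a).length < 10
  | 0 | 1 | 2 | 3 | _+4 => by simp [hh]
theorem gg_pos : ∀ a, 0 < (gg a).length
  | 0 | 1 | 2 | 3 | _+4 => by simp [gg]
theorem gg_lt : ∀ a, (gg a).length < 10
  | 0 | 1 | 2 | 3 | _+4 => by simp [gg]

def LL : ℕ → List ℕ
  | 0 => [0]
  | k+1 => (LL k).flatMap hh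

def qClo (f : List ℕ) (t : ℕ) : Bool :=
  decide (t + 44 ≤ (f.flatMap hh).length) && F.contains (((f.flatMap hh).drop t).take 44)

def q3 (f : List ℕ) (t : ℕ) : Bool :=
  decide (t + 3 ≤ (f.flatMap gg).length) && (((f.flatMap gg).drop t).take 3).contains 2 &&
    (((f.flatMap gg).drop t).take 3).all (fun a => decide (a < 3))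

theorem c_clo : loc F hh qClo = true := by decide +kernel
theorem c_init : (decide (44 ≤ (LL 9).length) && F.contains ((LL 9).take 44)) = true := by
  decide +kernel
theorem c_q3 : loc F gg q3 = true := by decide +kernel
theorem c_rech : loc F hh (qRec hh 1 Th) = true := by decide +kernel
theorem c_recg : loc F gg (qRec gg 4 Tg) = true := by decide +kernel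
theorem c_lenh : F.all (qLen hh (4+1) (4+2*1) 17 29) = true := by decide +kernel
theorem c_leng : F.all (qLen gg (4+1) (0+2*4) 17 62) = true := by decide +kernel
theorem c_smh : loc F hh (qSmall hh 18 12 4) = true := by decide +kernel
theorem c_smg : loc F gg (qSmall gg 1 62 0) = true := by decide +kernel

end Pool.Agent.H.MP_fa571f_co
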