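import Pool.Agent.H.MP_fa571f_co.B

set_option autoImplicit false

namespace Pool.Agent.H.MP_fa571f_co

theorem flat_len (l : List ℕ) : l.length ≤ (l.flatMap hh).length := by
  induction l with
  | nil => simp
  | cons a l ih =>
    have := hh_pos a
    simp only [List.flatMap_cons, List.length_append, List.length_cons]
    omega

theorem LL_step : ∀ k, ∃ r, LL (k+1) = LL k ++ r ∧ 0 < r.length
  | 0 => ⟨[1], by decide, by decide⟩
  | k+1 => by
    obtain ⟨r, h1, h2⟩ := LL_step k
    refine ⟨r.flatMap hh, ?_, lt_of_lt_of_le h2 (flat_len r)⟩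
    have e1 : LL (k+1+1) = (LL (k+1)).flatMap hh := rfl
    have e2 : LL (k+1) = (LL k).flatMap hh := rfl
    rw [e1]
    conv_lhs => rw [h1]
    rw [List.flatMap_append, ← e2]

theorem LL_len : ∀ k, k < (LL k).length
  | 0 => by decide
  | k+1 => by
    obtain ⟨r, h1, h2⟩ := LL_step k
    have := LL_len k
    rw [h1, List.length_append]; omega

theorem LL_mono (k n : ℕ) (hn : n < (LL k).length) : ∀ c, (LL (k+c))[n]? = (LL k)[n]? ∧
    (LL k).length ≤ (LL (k+c)).length
  | 0 => ⟨rfl, le_rfl⟩
  | c+1 => by
    obtain ⟨r, h1, h2⟩ := LL_step (k+c)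
    obtain ⟨i1, i2⟩ := LL_mono k n hn c
    rw [show k + (c+1) = k + c + 1 by omega, h1, List.getElem?_append_left (by omega),
      List.length_append]
    exact ⟨i1, by omega⟩

def xx (n : ℕ) : ℕ := (LL n).getD n 0

theorem LL_get (k n : ℕ) (hn : n < (LL k).length) : (LL k)[n]? = some (xx n) := by
  have h1 := (LL_mono k n hn n).1
  have h2 := (LL_mono n n (LL_len n) k).1
  rw [Nat.add_comm n k, h1] at h2
  rw [h2, xx, List.getD_eq_getElem?_getD, List.getElem?_eq_getElem (LL_len n)]
  rfl

theorem LL_seg (k : ℕ) : seg xx 0 (LL k).length = LL k := by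
  apply seg_ext _ _ _ _ rfl
  intro j hj
  rw [LL_get k j hj, Nat.zero_add]

theorem xx_img : Img hh xx xx := by
  intro m j hj
  have h1 := LL_len m
  obtain ⟨c, hc⟩ := Nat.exists_eq_add_of_lt h1
  have h2 := LL_seg m
  rw [hc, show m + c + 1 = m + (c+1) by omega, seg_add] at h2
  have h3 : LL (m+1) = (seg xx 0 m).flatMap hh ++ (hh (xx m) ++ (seg xx (m+1) c).flatMap hh) := by
    have e2 : LL (m+1) = (LL m).flatMap hh := rfl
    rw [e2, ← h2, List.flatMap_append]
    simp [seg]
  have h4 := pi_len hh xx m 0
  simp only [Nat.zero_add, pi] at h4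
  have h5 := LL_get (m+1) (pi hh xx m + j) (by
    rw [h3, List.length_append, List.length_append]; omega)
  rw [h3, List.getElem?_append_right (by omega), List.getElem?_append_left (by omega),
    show pi hh xx m + j - ((seg xx 0 m).flatMap hh).length = j by omega] at h5
  exact h5

theorem xx_F : ∀ i, seg xx i (43+1) ∈ F := by
  intro i
  induction i using Nat.strong_induction_on with
  | _ i ih =>
    obtain ⟨m, t, h1, h2⟩ := decomp hh hh_pos xx i
    by_cases hm : m < i
    · have := loc_use F hh _ c_clo xx m 43 t (ih m hm) h2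
      simp only [qClo, Bool.and_eq_true, decide_eq_true_eq, List.contains_iff_mem] at this
      rw [h1, segwin hh xx xx xx_img (43+1) m t _ this.1]
      exact this.2
    · have hi : i = 0 := by
        by_contra h0
        have a1 := pi_ge hh hh_pos xx 1 (m-1)
        have a2 : pi hh xx 1 = 2 := by decide
        rw [show 1 + (m-1) = m by omega] at a1
        omega
      subst hi
      have := c_init
      simp only [Bool.and_eq_true, decide_eq_true_eq, List.contains_iff_mem] at this
      rw [← seg_take xx 0 (LL 9).length (43+1) this.1, LL_seg]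
      exact this.2

theorem xx_norep : ∀ P, 17 < P → ∀ i, (∀ k, k + 4 < P → xx (i+k) = xx (i+P+k)) → False := by
  intro P
  induction P using Nat.strong_induction_on with
  | _ P ih =>
    intro hP i hx
    by_cases h : P < 18 + 12
    · exact small_use F hh hh_pos 18 12 4 43 c_smh xx xx xx_F xx_img i P (by omega) h hx
    · obtain ⟨m, p, h1, h2, h3⟩ := step F hh hh_pos hh_lt 1 43 4 4 17 29 Th c_rech c_lenh
        (by omega) (by omega) xx xx xx_F xx_img i P (by omega) (by omega) hx
      have a1 := (len_use F hh _ _ _ _ _ c_lenh xx xx_F (by omega) (by omega) m).1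
      have a2 := pi_ge hh hh_pos xx (m + (4+1)) (p - 5)
      rw [show m + (4+1) + (p-5) = m + p by omega] at a2
      exact ih p (by omega) h1 m h3

/-- A square-free ternary word in which any three consecutive letters contain a 2. -/
theorem exists_word : ∃ w : ℕ → ℕ, (∀ i, w i < 3) ∧ (∀ i, w i = 2 ∨ w (i+1) = 2 ∨ w (i+2) = 2) ∧
    ∀ i P, 1 ≤ P → (∀ k, k < P → w (i+k) = w (i+P+k)) → False := by
  obtain ⟨w, hw⟩ := exists_img gg gg_pos xx
  have h3 : ∀ i, (seg w i 3).contains 2 = true ∧ (seg w i 3).all (fun a => decide (a < 3)) = true := by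
    intro i
    obtain ⟨m, t, rfl, h2⟩ := decomp gg gg_pos xx i
    have := loc_use F gg _ c_q3 xx m 43 t (xx_F m) h2
    simp only [q3, Bool.and_eq_true, decide_eq_true_eq] at this
    rw [segwin gg xx w hw (43+1) m t _ this.1.1]
    exact ⟨this.1.2, this.2⟩
  refine ⟨w, fun i => ?_, fun i => ?_, fun i P hP h => ?_⟩
  · have := (h3 i).2
    simp only [seg, List.all_cons, Bool.and_eq_true, decide_eq_true_eq] at this
    exact this.1
  · have := (h3 i).1
    simp only [seg, List.contains_iff_mem, List.mem_cons, List.not_mem_nil, or_false] at this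
    rcases this with h | h | h
    · exact Or.inl h.symm
    · exact Or.inr (Or.inl h.symm)
    · exact Or.inr (Or.inr h.symm)
  · by_cases hs : P < 1 + 62
    · exact small_use F gg gg_pos 1 62 0 43 c_smg xx w xx_F hw i P hP hs (fun k hk => h k hk)
    · obtain ⟨m, p, h1, _, h3⟩ := step F gg gg_pos gg_lt 4 43 0 4 17 62 Tg c_recg c_leng
        (by omega) (by omega) xx w xx_F hw i P (by omega) (by omega) (fun k hk => h k hk)
      exact xx_norep p h1 m h3

end Pool.Agent.H.MP_fa571f_co
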